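import Mathlib

set_option autoImplicit false

/-! # The digit set `{0,1,3,7,8,10}` and the multiplicities of `c·A + d·A` -/

open Finset

namespace Run7.h97.FD

/-- the six digits -/
def dig : Fin 6 → ℤ := ![0, 1, 3, 7, 8, 10]

/-- number of representations of `c x + d y` (`x, y` digits) as `c x' + d y'` -/
def rho (c d : ℤ) (b : Fin 6 × Fin 6) : ℕ :=
  (univ.filter fun b' : Fin 6 × Fin 6 =>
    c * dig b'.1 + d * dig b'.2 = c * dig b.1 + d * dig b.2).card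

theorem n1 : ∏ b, rho 1 1 b = 2 ^ 42 * 3 ^ 0 := by decide +kernel
theorem n2 : ∏ b, rho 1 (-1) b = 2 ^ 18 * 3 ^ 12 := by decide +kernel
theorem n3 : ∏ b, rho 1 (-2) b = 2 ^ 2 * 3 ^ 9 := by decide +kernel
theorem n4 : ∏ b, rho 1 2 b = 2 ^ 20 * 3 ^ 0 := by decide +kernel
theorem n5 : ∏ b, rho 1 4 b = 2 ^ 8 * 3 ^ 0 := by decide +kernel
theorem n6 : ∏ b, rho 1 (-4) b = 2 ^ 8 * 3 ^ 0 := by decide +kernel
theorem n7 : ∏ b, rho 1 (-8) b = 2 ^ 4 * 3 ^ 0 := by decide +kernel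
theorem n8 : ∏ b, rho 1 8 b = 2 ^ 4 * 3 ^ 0 := by decide +kernel

theorem rho_pos (c d : ℤ) (b : Fin 6 × Fin 6) : 0 < rho c d b :=
  card_pos.2 ⟨b, mem_filter.2 ⟨mem_univ _, rfl⟩⟩

theorem rho_smul (k c d : ℤ) (hk : k ≠ 0) (b : Fin 6 × Fin 6) :
    rho (k * c) (k * d) b = rho c d b := by
  unfold rho
  congr 1
  refine filter_congr fun b' _ => ?_
  rw [mul_assoc, mul_assoc, mul_assoc, mul_assoc, ← mul_add, ← mul_add]
  exact ⟨fun h => mul_left_cancel₀ hk h, fun h => by rw [h]⟩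

theorem rho_swap (c d : ℤ) (b : Fin 6 × Fin 6) : rho d c b.swap = rho c d b := by
  unfold rho
  refine card_bij (fun b' _ => b'.swap) ?_ ?_ ?_
  · intro b' hb'
    rw [mem_filter] at hb' ⊢
    refine ⟨mem_univ _, ?_⟩
    have := hb'.2
    simp only [Prod.fst_swap, Prod.snd_swap] at this ⊢
    linarith
  · intro a _ b _ h
    exact Prod.swap_injective h
  · intro b' hb'
    refine ⟨b'.swap, ?_, Prod.swap_swap _⟩
    rw [mem_filter] at hb' ⊢
    refine ⟨mem_univ _, ?_⟩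
    have := hb'.2
    simp only [Prod.fst_swap, Prod.snd_swap] at this ⊢
    linarith

theorem dig_bound : ∀ i : Fin 6, 0 ≤ dig i ∧ dig i ≤ 10 := by decide

theorem dig_inj : Function.Injective dig := by decide

theorem rho_large (d : ℤ) (hd : 11 ≤ |d|) (b : Fin 6 × Fin 6) : rho 1 d b = 1 := by
  unfold rho
  rw [card_eq_one]
  refine ⟨b, ?_⟩
  ext b'
  rw [mem_filter, mem_singleton]
  refine ⟨fun h => ?_, fun h => ⟨mem_univ _, by rw [h]⟩⟩
  have h1 := h.2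
  have hb1 := dig_bound b.1
  have hb2 := dig_bound b.2
  have hc1 := dig_bound b'.1
  have hc2 := dig_bound b'.2
  have h2 : d * (dig b'.2 - dig b.2) = dig b.1 - dig b'.1 := by linarith
  have h3 : dig b'.2 = dig b.2 := by
    by_contra hne
    have h4 : 1 ≤ |dig b'.2 - dig b.2| := Int.one_le_abs (sub_ne_zero.2 hne)
    have h5 : |d| * |dig b'.2 - dig b.2| = |dig b.1 - dig b'.1| := by rw [← abs_mul, h2]
    have h6 : |dig b.1 - dig b'.1| ≤ 10 := by rw [abs_le]; constructor <;> linarith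
    nlinarith [abs_nonneg d]
  have h7 : dig b'.1 = dig b.1 := by
    rw [h3, sub_self, mul_zero] at h2
    linarith
  exact Prod.ext (dig_inj h7) (dig_inj h3)

/-- sum of the logarithms of the multiplicities -/
noncomputable def E (c d : ℤ) : ℝ := ∑ b, Real.log (rho c d b)

theorem E_eq (c d : ℤ) : E c d = Real.log ((∏ b, rho c d b : ℕ) : ℝ) := by
  unfold E
  push_cast
  rw [Real.log_prod]
  intro b _
  exact_mod_cast (rho_pos c d b).ne'

theorem E_smul (k c d : ℤ) (hk : k ≠ 0) : E (k * c) (k * d) = E c d := by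
  unfold E
  exact sum_congr rfl fun b _ => by rw [rho_smul k c d hk]

theorem E_swap (c d : ℤ) : E d c = E c d := by
  unfold E
  refine (Fintype.sum_equiv (Equiv.prodComm (Fin 6) (Fin 6)) _ _ fun b => ?_).symm
  rw [Equiv.prodComm_apply, rho_swap]

theorem E_large (d : ℤ) (hd : 11 ≤ |d|) : E 1 d = 0 := by
  unfold E
  exact sum_eq_zero fun b _ => by rw [rho_large d hd, Nat.cast_one, Real.log_one]

/-- exponents of 2 for `+` -/
def p2 : ℕ → ℕ
  | 0 => 42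
  | 1 => 2
  | 2 => 8
  | 3 => 4
  | _ => 0

/-- exponents of 3 for `+` -/
def p3 : ℕ → ℕ
  | 1 => 9
  | _ => 0

/-- exponents of 2 for `-` -/
def m2 : ℕ → ℕ
  | 0 => 18
  | 1 => 20
  | 2 => 8
  | 3 => 4
  | _ => 0

/-- exponents of 3 for `-` -/
def m3 : ℕ → ℕ
  | 0 => 12
  | _ => 0

theorem big_pow (g : ℕ) : 11 ≤ |(-2 : ℤ) ^ (g + 4)| := by
  rw [abs_pow, pow_add]
  have : (1 : ℤ) ≤ |(-2 : ℤ)| ^ g := one_le_pow₀ (by norm_num)
  have h2 : |(-2 : ℤ)| ^ 4 = 16 := by norm_num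
  rw [h2]
  linarith

theorem log_cast (a b : ℕ) :
    Real.log ((2 ^ a * 3 ^ b : ℕ) : ℝ) = a * Real.log 2 + b * Real.log 3 := by
  push_cast
  rw [Real.log_mul (by positivity) (by positivity), Real.log_pow, Real.log_pow]

theorem EP (g : ℕ) : E 1 ((-2) ^ g) = p2 g * Real.log 2 + p3 g * Real.log 3 := by
  match g with
  | 0 => rw [pow_zero, E_eq, n1, log_cast]; rfl
  | 1 => rw [pow_one, E_eq, n3, log_cast]; rfl
  | 2 => rw [show ((-2 : ℤ)) ^ 2 = 4 by norm_num, E_eq, n5, log_cast]; rfl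
  | 3 => rw [show ((-2 : ℤ)) ^ 3 = -8 by norm_num, E_eq, n7, log_cast]; rfl
  | g + 4 => rw [E_large _ (big_pow g)]; simp [p2, p3]

theorem EM (g : ℕ) : E 1 (-(-2) ^ g) = m2 g * Real.log 2 + m3 g * Real.log 3 := by
  match g with
  | 0 => rw [pow_zero, E_eq, n2, log_cast]; rfl
  | 1 => rw [pow_one, neg_neg, E_eq, n4, log_cast]; rfl
  | 2 => rw [show (-(-2 : ℤ) ^ 2) = -4 by norm_num, E_eq, n6, log_cast]; rfl
  | 3 => rw [show (-(-2 : ℤ) ^ 3) = 8 by norm_num, E_eq, n8, log_cast]; rfl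
  | g + 4 => rw [E_large _ (by rw [abs_neg]; exact big_pow g)]; simp [m2, m3]

theorem Epp (i j : ℕ) : E ((-2) ^ i) ((-2) ^ j) = E 1 ((-2) ^ ((i - j) + (j - i))) := by
  have h0 : ∀ k : ℕ, ((-2 : ℤ)) ^ k ≠ 0 := fun k => pow_ne_zero _ (by norm_num)
  rcases le_total i j with h | h
  · obtain ⟨k, rfl⟩ := Nat.exists_eq_add_of_le h
    rw [pow_add, show i - (i + k) + (i + k - i) = k by omega]
    conv_lhs => rw [← mul_one (((-2 : ℤ)) ^ i), mul_assoc, one_mul]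
    rw [E_smul _ _ _ (h0 i)]
  · obtain ⟨k, rfl⟩ := Nat.exists_eq_add_of_le h
    rw [pow_add, show j + k - j + (j - (j + k)) = k by omega, E_swap]
    conv_lhs => rw [← mul_one (((-2 : ℤ)) ^ j), mul_assoc, one_mul]
    rw [E_smul _ _ _ (h0 j)]

theorem Epm (i j : ℕ) :
    E ((-2) ^ i) (2 * (-2) ^ j) = E 1 (-(-2) ^ ((i - (j + 1)) + ((j + 1) - i))) := by
  have h0 : ∀ k : ℕ, ((-2 : ℤ)) ^ k ≠ 0 := fun k => pow_ne_zero _ (by norm_num)
  have e : (2 : ℤ) * (-2) ^ j = -(-2) ^ (j + 1) := by rw [pow_succ]; ring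
  rw [e]
  generalize j + 1 = j
  rcases le_total i j with h | h
  · obtain ⟨k, rfl⟩ := Nat.exists_eq_add_of_le h
    rw [pow_add, show i - (i + k) + (i + k - i) = k by omega]
    have := E_smul ((-2) ^ i) 1 (-(-2) ^ k) (h0 i)
    rw [← this]
    congr 1 <;> ring
  · obtain ⟨k, rfl⟩ := Nat.exists_eq_add_of_le h
    rw [pow_add, show j + k - j + (j - (j + k)) = k by omega, E_swap]
    have := E_smul (-(-2) ^ j) 1 (-(-2) ^ k) (neg_ne_zero.2 (h0 j))
    rw [← this]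
    congr 1 <;> ring

theorem sum_P : ∑ i : Fin 20, ∑ j : Fin 20, E ((-2) ^ (i : ℕ)) ((-2) ^ (j : ℕ))
    = 1340 * Real.log 2 + 342 * Real.log 3 := by
  have h2 : ∑ i : Fin 20, ∑ j : Fin 20, p2 (((i : ℕ) - j) + (j - i)) = 1340 := by decide +kernel
  have h3 : ∑ i : Fin 20, ∑ j : Fin 20, p3 (((i : ℕ) - j) + (j - i)) = 342 := by decide +kernel
  simp only [Epp, EP, sum_add_distrib, ← sum_mul]
  rw [← Nat.cast_inj (R := ℝ)] at h2 h3
  push_cast at h2 h3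
  rw [h2, h3]

theorem sum_M : ∑ i : Fin 20, ∑ j : Fin 20, E ((-2) ^ (i : ℕ)) (2 * (-2) ^ (j : ℕ))
    = 1526 * Real.log 2 + 228 * Real.log 3 := by
  have h2 : ∑ i : Fin 20, ∑ j : Fin 20, m2 (((i : ℕ) - (j + 1)) + ((j + 1) - i)) = 1526 := by
    decide +kernel
  have h3 : ∑ i : Fin 20, ∑ j : Fin 20, m3 (((i : ℕ) - (j + 1)) + ((j + 1) - i)) = 228 := by
    decide +kernel
  simp only [Epm, EM, sum_add_distrib, ← sum_mul]
  rw [← Nat.cast_inj (R := ℝ)] at h2 h3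
  push_cast at h2 h3
  rw [h2, h3]

/-- the entropy of `X + Y` exceeds that of `X + 2Y` -/
theorem delta_pos : ∑ i : Fin 20, ∑ j : Fin 20, E ((-2) ^ (i : ℕ)) ((-2) ^ (j : ℕ)) <
    ∑ i : Fin 20, ∑ j : Fin 20, E ((-2) ^ (i : ℕ)) (2 * (-2) ^ (j : ℕ)) := by
  rw [sum_P, sum_M]
  have h : (19 : ℕ) * Real.log 3 < (31 : ℕ) * Real.log 2 := by
    rw [← Real.log_pow, ← Real.log_pow]
    exact Real.log_lt_log (by norm_num) (by norm_num)
  push_cast at h
  linarith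

end Run7.h97.FD
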