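import Mathlib
import Pool.Agent.Run7.h97.FD.Num

set_option autoImplicit false

/-! # A finite set of integers for which `X + 2Y` has smaller entropy than `X + Y` -/

open Finset

namespace Run7.h97.FD

/-- an additive map `ℤ^ι → ℤ` which is injective on a given finite set -/
theorem exists_hom {ι : Type*} [Fintype ι] (T : Finset (ι → ℤ)) :
    ∃ φ : (ι → ℤ) →+ ℤ, Set.InjOn φ T := by
  classical
  let e := Fintype.equivFin ι
  let P : (ι → ℤ) → Polynomial ℤ := fun x =>
    ∑ i, Polynomial.C (x i) * Polynomial.X ^ (e i : ℕ)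
  have hcoeff : ∀ x i, (P x).coeff (e i : ℕ) = x i := by
    intro x i
    simp only [P, Polynomial.finsetSum_coeff, Polynomial.coeff_C_mul, Polynomial.coeff_X_pow]
    rw [sum_eq_single i]
    · simp
    · intro j _ hj
      have : ((e i : ℕ)) ≠ (e j : ℕ) := fun h => hj (e.injective (Fin.ext h)).symm
      simp [this]
    · simp
  let Q : Polynomial ℤ := ∏ p ∈ (T ×ˢ T).filter (fun p => p.1 ≠ p.2), P (p.1 - p.2)
  have hQ : Q ≠ 0 := by
    refine prod_ne_zero_iff.2 fun p hp h => ?_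
    apply (mem_filter.1 hp).2
    funext i
    have := hcoeff (p.1 - p.2) i
    rw [h, Polynomial.coeff_zero] at this
    have h2 : (p.1 - p.2) i = p.1 i - p.2 i := rfl
    rw [h2] at this
    linarith
  obtain ⟨N, hN⟩ : ∃ N : ℤ, Q.eval N ≠ 0 := by
    by_contra! h
    exact hQ (Polynomial.funext fun r => by simpa using h r)
  refine ⟨⟨⟨fun x => ∑ i, x i * N ^ (e i : ℕ), by simp⟩, ?_⟩, ?_⟩
  · intro x y
    simp only [Pi.add_apply, add_mul, sum_add_distrib]
  · intro x hx y hy hxy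
    by_contra hne
    apply hN
    rw [Polynomial.eval_prod]
    refine prod_eq_zero (i := (x, y)) (mem_filter.2 ⟨mem_product.2 ⟨hx, hy⟩, hne⟩) ?_
    have h1 : ∑ i, x i * N ^ (e i : ℕ) = ∑ i, y i * N ^ (e i : ℕ) := hxy
    simp only [P, Polynomial.eval_finsetSum, Polynomial.eval_mul, Polynomial.eval_C,
      Polynomial.eval_pow, Polynomial.eval_X, Pi.sub_apply, sub_mul, sum_sub_distrib]
    rw [h1, sub_self]

/-- index type of the set -/
abbrev I (m : ℕ) := Fin 20 × (Fin m → Fin 6)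

/-- scale -/
def sc (J : Fin 20) : ℤ := (-2) ^ (J : ℕ)

/-- the vector with index `(J, t)` -/
def vec {m : ℕ} (x : I m) : (Fin m ⊕ Fin 20) → ℤ :=
  Sum.elim (fun k => sc x.1 * dig (x.2 k)) (Pi.single x.1 1)

/-- number of representations of `e x + k e y` -/
def R {m : ℕ} (k : ℤ) (e : I m → ℤ) (x y : I m) : ℕ :=
  (univ.filter fun q : I m × I m => e q.1 + k * e q.2 = e x + k * e y).card

/-- product of the multiplicities -/
def Fs {m : ℕ} (c d : ℤ) (t u : Fin m → Fin 6) : Finset (Fin m → Fin 6 × Fin 6) :=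
  Fintype.piFinset fun k => univ.filter fun b' : Fin 6 × Fin 6 =>
    c * dig b'.1 + d * dig b'.2 = c * dig (t k) + d * dig (u k)

theorem card_Fs {m : ℕ} (c d : ℤ) (t u : Fin m → Fin 6) :
    (Fs c d t u).card = ∏ k, rho c d (t k, u k) := by
  unfold Fs
  rw [Fintype.card_piFinset]
  rfl

/-- the pair of indices -/
def mk {m : ℕ} (J K : Fin 20) (v : Fin m → Fin 6 × Fin 6) : I m × I m :=
  ((J, fun k => (v k).1), (K, fun k => (v k).2))

theorem mk_inj {m : ℕ} (J K : Fin 20) : Function.Injective (mk (m := m) J K) := by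
  intro v w h
  simp only [mk, Prod.mk.injEq, true_and] at h
  funext k
  exact Prod.ext (congrFun h.1 k) (congrFun h.2 k)

theorem sidon (a b c d : Fin 20)
    (h : (Pi.single a 1 + Pi.single b 1 : Fin 20 → ℤ) = Pi.single c 1 + Pi.single d 1) :
    (a = c ∧ b = d) ∨ (a = d ∧ b = c) := by
  have ha := congrFun h a
  have hb := congrFun h b
  have hc := congrFun h c
  have hd := congrFun h d
  simp only [Pi.add_apply, Pi.single_apply] at ha hb hc hd
  by_cases h1 : a = c
  · by_cases h2 : b = d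
    · exact Or.inl ⟨h1, h2⟩
    · subst h1
      simp only [if_true] at ha hb hc hd
      have h3 : (Pi.single b 1 : Fin 20 → ℤ) = Pi.single d 1 := add_left_cancel h
      have := congrFun h3 b
      simp [h2] at this
  · by_cases h2 : a = d
    · subst h2
      rw [add_comm (Pi.single c 1)] at h
      have h3 : (Pi.single b 1 : Fin 20 → ℤ) = Pi.single c 1 := add_left_cancel h
      have := congrFun h3 b
      by_cases h4 : b = c
      · exact Or.inr ⟨rfl, h4⟩
      · simp [h4] at this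
    · exfalso
      simp only [if_true, h1, h2, if_false, add_zero] at ha
      split_ifs at ha <;> omega

theorem R1_le {m : ℕ} (φ : ((Fin m ⊕ Fin 20) → ℤ) →+ ℤ)
    (hφ : Set.InjOn φ ((univ : Finset (I m × I m)).image fun q => vec q.1 + vec q.2))
    (x y : I m) :
    R 1 (fun z => φ (vec z)) x y ≤ 2 * ∏ k, rho (sc x.1) (sc y.1) (x.2 k, y.2 k) := by
  classical
  rw [← card_Fs, two_mul]
  have hsub : (univ.filter fun q : I m × I m =>
      φ (vec q.1) + 1 * φ (vec q.2) = φ (vec x) + 1 * φ (vec y)) ⊆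
      (Fs (sc x.1) (sc y.1) x.2 y.2).image (mk x.1 y.1) ∪
      (Fs (sc x.1) (sc y.1) x.2 y.2).image (fun v => (mk x.1 y.1 v).swap) := by
    intro q hq
    have h1 := (mem_filter.1 hq).2
    rw [one_mul, one_mul, ← map_add, ← map_add] at h1
    have h2 : vec q.1 + vec q.2 = vec x + vec y :=
      hφ (mem_coe.2 (mem_image.2 ⟨q, mem_univ _, rfl⟩))
        (mem_coe.2 (mem_image.2 ⟨(x, y), mem_univ _, rfl⟩)) h1
    have hl : ∀ k, sc q.1.1 * dig (q.1.2 k) + sc q.2.1 * dig (q.2.2 k) =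
        sc x.1 * dig (x.2 k) + sc y.1 * dig (y.2 k) := fun k => congrFun h2 (Sum.inl k)
    have hr : (Pi.single q.1.1 1 + Pi.single q.2.1 1 : Fin 20 → ℤ) =
        Pi.single x.1 1 + Pi.single y.1 1 := by
      funext k
      exact congrFun h2 (Sum.inr k)
    rw [mem_union]
    rcases sidon _ _ _ _ hr with ⟨ha, hb⟩ | ⟨ha, hb⟩
    · left
      refine mem_image.2 ⟨fun k => (q.1.2 k, q.2.2 k), ?_, ?_⟩
      · refine Fintype.mem_piFinset.2 fun k => mem_filter.2 ⟨mem_univ _, ?_⟩
        have := hl k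
        rw [ha, hb] at this
        exact this
      · unfold mk
        exact Prod.ext (Prod.ext ha.symm rfl) (Prod.ext hb.symm rfl)
    · right
      refine mem_image.2 ⟨fun k => (q.2.2 k, q.1.2 k), ?_, ?_⟩
      · refine Fintype.mem_piFinset.2 fun k => mem_filter.2 ⟨mem_univ _, ?_⟩
        have := hl k
        rw [ha, hb, add_comm] at this
        exact this
      · unfold mk
        exact Prod.ext (Prod.ext ha.symm rfl) (Prod.ext hb.symm rfl)
  refine (card_le_card hsub).trans ((card_union_le _ _).trans ?_)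
  exact Nat.add_le_add card_image_le card_image_le

theorem R2_ge {m : ℕ} (φ : ((Fin m ⊕ Fin 20) → ℤ) →+ ℤ) (x y : I m) :
    ∏ k, rho (sc x.1) (2 * sc y.1) (x.2 k, y.2 k) ≤ R 2 (fun z => φ (vec z)) x y := by
  classical
  rw [← card_Fs]
  refine card_le_card_of_injOn (mk x.1 y.1) ?_ (mk_inj _ _).injOn
  intro v hv
  have hv' := Fintype.mem_piFinset.1 hv
  refine mem_coe.2 (mem_filter.2 ⟨mem_univ _, ?_⟩)
  have h1 : ∀ z w : I m, φ (vec z) + 2 * φ (vec w) = φ (vec z + (vec w + vec w)) := by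
    intro z w
    rw [map_add, map_add]
    ring
  simp only [h1]
  congr 1
  funext k
  rcases k with k | k
  · have := (mem_filter.1 (hv' k)).2
    simp only [vec, mk, Pi.add_apply, Sum.elim_inl]
    linarith
  · simp only [vec, mk, Pi.add_apply, Sum.elim_inr]

theorem R_pos {m : ℕ} (k : ℤ) (e : I m → ℤ) (x y : I m) : 0 < R k e x y :=
  card_pos.2 ⟨(x, y), mem_filter.2 ⟨mem_univ _, rfl⟩⟩

theorem sum_coord {m : ℕ} (k : Fin m) (f : Fin 6 → ℝ) :
    6 * ∑ t : Fin m → Fin 6, f (t k) = 6 ^ m * ∑ a, f a := by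
  classical
  have h1 : ∑ t : Fin m → Fin 6, f (t k) =
      ∑ p : Fin 6 × ({ j // j ≠ k } → Fin 6), f p.1 :=
    Fintype.sum_equiv (Equiv.funSplitAt k (Fin 6)) _ _ fun t => rfl
  have h2 : Fintype.card (Fin m → Fin 6) =
      Fintype.card (Fin 6 × ({ j // j ≠ k } → Fin 6)) :=
    Fintype.card_congr (Equiv.funSplitAt k (Fin 6))
  rw [Fintype.card_prod, Fintype.card_fun, Fintype.card_fin, Fintype.card_fin] at h2
  have h3 : (6 : ℝ) ^ m = 6 * (Fintype.card ({ j // j ≠ k } → Fin 6) : ℝ) := by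
    exact_mod_cast h2
  rw [h1, Fintype.sum_prod_type, h3]
  simp only [sum_const, card_univ, nsmul_eq_mul, ← mul_sum]
  ring

theorem sum_coord2 {m : ℕ} (k : Fin m) (g : Fin 6 × Fin 6 → ℝ) :
    36 * ∑ t : Fin m → Fin 6, ∑ u : Fin m → Fin 6, g (t k, u k) = 36 ^ m * ∑ b, g b := by
  have h1 : ∀ a : Fin 6, 6 * ∑ u : Fin m → Fin 6, g (a, u k) = 6 ^ m * ∑ b, g (a, b) :=
    fun a => sum_coord k fun b => g (a, b)
  have h2 := sum_coord k fun a => ∑ u : Fin m → Fin 6, g (a, u k)
  have h3 : (36 : ℝ) ^ m = 6 ^ m * 6 ^ m := by rw [← mul_pow]; norm_num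
  calc 36 * ∑ t : Fin m → Fin 6, ∑ u : Fin m → Fin 6, g (t k, u k)
      = 6 * (6 * ∑ t : Fin m → Fin 6, ∑ u : Fin m → Fin 6, g (t k, u k)) := by ring
    _ = 6 * (6 ^ m * ∑ a, ∑ u : Fin m → Fin 6, g (a, u k)) := by rw [h2]
    _ = 6 ^ m * ∑ a, 6 * ∑ u : Fin m → Fin 6, g (a, u k) := by rw [← mul_sum]; ring
    _ = 6 ^ m * ∑ a, 6 ^ m * ∑ b, g (a, b) := by simp only [h1]
    _ = 36 ^ m * ∑ b, g b := by
      rw [← mul_sum, ← mul_assoc, ← h3, Fintype.sum_prod_type]

theorem sum_all {m : ℕ} (h : Fin 20 → Fin 20 → Fin 6 × Fin 6 → ℝ) :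
    36 * ∑ x : I m, ∑ y : I m, ∑ k, h x.1 y.1 (x.2 k, y.2 k) =
      m * 36 ^ m * ∑ J, ∑ K, ∑ b, h J K b := by
  have e1 : ∑ x : I m, ∑ y : I m, ∑ k, h x.1 y.1 (x.2 k, y.2 k) =
      ∑ J, ∑ K, ∑ k : Fin m, ∑ t : Fin m → Fin 6, ∑ u : Fin m → Fin 6, h J K (t k, u k) := by
    rw [Fintype.sum_prod_type]
    refine sum_congr rfl fun J _ => ?_
    have : ∀ t : Fin m → Fin 6, ∑ y : I m, ∑ k, h (J, t).1 y.1 ((J, t).2 k, y.2 k) =
        ∑ K, ∑ u : Fin m → Fin 6, ∑ k, h J K (t k, u k) := fun t => by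
      rw [Fintype.sum_prod_type]
    simp only [this]
    rw [sum_comm]
    refine sum_congr rfl fun K _ => ?_
    have h2 : ∀ t : Fin m → Fin 6, ∑ u : Fin m → Fin 6, ∑ k, h J K (t k, u k) =
        ∑ k, ∑ u : Fin m → Fin 6, h J K (t k, u k) := fun t => sum_comm
    simp only [h2]
    rw [sum_comm]
  rw [e1, mul_sum]
  have e2 : ∀ J K, 36 * ∑ k : Fin m, ∑ t : Fin m → Fin 6, ∑ u : Fin m → Fin 6,
      h J K (t k, u k) = m * 36 ^ m * ∑ b, h J K b := by
    intro J K
    rw [mul_sum]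
    simp only [sum_coord2, sum_const, card_univ, Fintype.card_fin, nsmul_eq_mul]
    ring
  simp only [mul_sum] at e2 ⊢
  simp only [e2]

/-- there is a family of integers for which `∑ log r(x + 2y) > ∑ log r(x + y)` -/
theorem exists_family : ∃ (m : ℕ) (e : I m → ℤ), Function.Injective e ∧
    ∑ x, ∑ y, Real.log (R 1 e x y) < ∑ x, ∑ y, Real.log (R 2 e x y) := by
  classical
  set Δ : ℝ := ∑ i : Fin 20, ∑ j : Fin 20, E (sc i) (2 * sc j) -
    ∑ i : Fin 20, ∑ j : Fin 20, E (sc i) (sc j) with hΔ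
  have hΔ0 : 0 < Δ := sub_pos.2 delta_pos
  obtain ⟨m, hm⟩ := exists_nat_gt (14400 * Real.log 2 / Δ)
  rw [div_lt_iff₀ hΔ0] at hm
  obtain ⟨φ, hφ⟩ := exists_hom ((univ : Finset (I m × I m)).image fun q => vec q.1 + vec q.2)
  refine ⟨m, fun z => φ (vec z), ?_, ?_⟩
  · intro x y hxy
    have h1 : vec x + vec x = vec y + vec y := by
      refine hφ (mem_coe.2 (mem_image.2 ⟨(x, x), mem_univ _, rfl⟩))
        (mem_coe.2 (mem_image.2 ⟨(y, y), mem_univ _, rfl⟩)) ?_
      rw [map_add, map_add]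
      have : φ (vec x) = φ (vec y) := hxy
      rw [this]
    have h2 : ∀ k, vec x k = vec y k := fun k => by
      have := congrFun h1 k
      simp only [Pi.add_apply] at this
      linarith
    have h3 : x.1 = y.1 := by
      have := h2 (Sum.inr x.1)
      simp only [vec, Sum.elim_inr, Pi.single_apply, if_true] at this
      by_contra hne
      rw [if_neg hne] at this
      exact one_ne_zero this
    refine Prod.ext h3 (funext fun k => dig_inj ?_)
    have := h2 (Sum.inl k)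
    simp only [vec, Sum.elim_inl, h3] at this
    exact mul_left_cancel₀ (pow_ne_zero _ (by norm_num)) this
  · have hlog : ∀ (c d : ℤ) (t u : Fin m → Fin 6),
        Real.log ((∏ k, rho c d (t k, u k) : ℕ) : ℝ) = ∑ k, Real.log (rho c d (t k, u k)) := by
      intro c d t u
      push_cast
      rw [Real.log_prod]
      intro b _
      exact_mod_cast (rho_pos c d _).ne'
    have hpos : ∀ (c d : ℤ) (t u : Fin m → Fin 6),
        0 < ((∏ k, rho c d (t k, u k) : ℕ) : ℝ) := fun c d t u => by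
      exact_mod_cast prod_pos fun k _ => rho_pos c d _
    have hA : ∑ x : I m, ∑ y : I m, Real.log (R 1 (fun z => φ (vec z)) x y) ≤
        ∑ x : I m, ∑ y : I m,
          (Real.log 2 + ∑ k, Real.log (rho (sc x.1) (sc y.1) (x.2 k, y.2 k))) := by
      refine sum_le_sum fun x _ => sum_le_sum fun y _ => ?_
      have h1 : ((R 1 (fun z => φ (vec z)) x y : ℕ) : ℝ) ≤
          2 * ((∏ k, rho (sc x.1) (sc y.1) (x.2 k, y.2 k) : ℕ) : ℝ) := by
        exact_mod_cast R1_le φ hφ x y
      have h2 : (0 : ℝ) < (R 1 (fun z => φ (vec z)) x y : ℕ) := by exact_mod_cast R_pos _ _ _ _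
      refine (Real.log_le_log h2 h1).trans (le_of_eq ?_)
      rw [Real.log_mul (by norm_num) (hpos _ _ _ _).ne', hlog]
    have hB : ∑ x : I m, ∑ y : I m, ∑ k, Real.log (rho (sc x.1) (2 * sc y.1) (x.2 k, y.2 k)) ≤
        ∑ x : I m, ∑ y : I m, Real.log (R 2 (fun z => φ (vec z)) x y) := by
      refine sum_le_sum fun x _ => sum_le_sum fun y _ => ?_
      have h1 : ((∏ k, rho (sc x.1) (2 * sc y.1) (x.2 k, y.2 k) : ℕ) : ℝ) ≤
          (R 2 (fun z => φ (vec z)) x y : ℕ) := by
        exact_mod_cast R2_ge φ x y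
      rw [← hlog]
      exact Real.log_le_log (hpos _ _ _ _) h1
    have hC := sum_all (m := m) fun J K b => Real.log (rho (sc J) (sc K) b)
    have hD := sum_all (m := m) fun J K b => Real.log (rho (sc J) (2 * sc K) b)
    have hcard : ∑ _x : I m, ∑ _y : I m, Real.log 2 = 400 * 36 ^ m * Real.log 2 := by
      have h36 : (36 : ℝ) ^ m = 6 ^ m * 6 ^ m := by rw [← mul_pow]; norm_num
      simp only [sum_const, card_univ, Fintype.card_prod, Fintype.card_fin, Fintype.card_fun,
        nsmul_eq_mul]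
      push_cast
      rw [h36]
      ring
    have h36 : (0 : ℝ) < 36 ^ m := by positivity
    have key : 36 * ∑ x : I m, ∑ y : I m,
          (Real.log 2 + ∑ k, Real.log (rho (sc x.1) (sc y.1) (x.2 k, y.2 k))) <
        36 * ∑ x : I m, ∑ y : I m, ∑ k, Real.log (rho (sc x.1) (2 * sc y.1) (x.2 k, y.2 k)) := by
      rw [hD]
      simp only [sum_add_distrib] at hcard ⊢
      rw [hcard, mul_add, hC]
      have e1 : ∑ J, ∑ K, ∑ b, Real.log (rho (sc J) (2 * sc K) b) =
          ∑ J, ∑ K, ∑ b, Real.log (rho (sc J) (sc K) b) + Δ := by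
        rw [hΔ]
        unfold E
        ring
      rw [e1]
      nlinarith
    linarith

end Run7.h97.FD
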