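import Mathlib
import Pool.Agent.Run7.h97.FD.Count
import Pool.Agent.R508.FDfinal

set_option autoImplicit false

/-! # From the family of integers to a finite set with `|S + 2·S| < |S + S|` -/

open Finset

namespace Run7.h97.FD

/-- representation count -/
def rr (S : Finset ℤ) (k z : ℤ) : ℕ := ((S ×ˢ S).filter fun p => p.1 + k * p.2 = z).card

/-- sum of the logarithms of the representation counts -/
noncomputable def LL (S : Finset ℤ) (k : ℤ) : ℝ :=
  ∑ q ∈ S ×ˢ S, Real.log (rr S k (q.1 + k * q.2))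

theorem rr_eq {m : ℕ} (e : I m → ℤ) (he : Function.Injective e) (k : ℤ) (x y : I m) :
    rr (univ.map ⟨e, he⟩) k (e x + k * e y) = R k e x y := by
  classical
  unfold rr R
  symm
  refine Finset.card_bij (fun q _ => (e q.1, e q.2)) ?_ ?_ ?_
  · intro q hq
    rw [mem_filter] at hq ⊢
    exact ⟨mem_product.2 ⟨mem_map.2 ⟨q.1, mem_univ _, rfl⟩, mem_map.2 ⟨q.2, mem_univ _, rfl⟩⟩, hq.2⟩
  · intro q _ q' _ h
    have h1 := congrArg Prod.fst h
    have h2 := congrArg Prod.snd h
    exact Prod.ext (he h1) (he h2)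
  · intro p hp
    rw [mem_filter, mem_product] at hp
    obtain ⟨⟨h1, h2⟩, h3⟩ := hp
    obtain ⟨a, _, ha⟩ := mem_map.1 h1
    obtain ⟨b, _, hb⟩ := mem_map.1 h2
    refine ⟨(a, b), ?_, Prod.ext ha hb⟩
    rw [mem_filter]
    refine ⟨mem_univ _, ?_⟩
    have ha' : e a = p.1 := ha
    have hb' : e b = p.2 := hb
    show e a + k * e b = e x + k * e y
    rw [ha', hb']
    exact h3

theorem LL_eq {m : ℕ} (e : I m → ℤ) (he : Function.Injective e) (k : ℤ) :
    LL (univ.map ⟨e, he⟩) k = ∑ x, ∑ y, Real.log (R k e x y) := by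
  unfold LL
  rw [sum_product, sum_map]
  refine sum_congr rfl fun x _ => ?_
  rw [sum_map]
  refine sum_congr rfl fun y _ => ?_
  have := rr_eq e he k x y
  simp only [Function.Embedding.coeFn_mk]
  rw [this]

theorem exists_set : ∃ S : Finset ℤ, 20 ≤ S.card ∧ LL S 1 < LL S 2 := by
  obtain ⟨m, e, he, h⟩ := exists_family
  refine ⟨univ.map ⟨e, he⟩, ?_, ?_⟩
  · rw [card_map, card_univ]
    have : Fintype.card (I m) = 20 * 6 ^ m := by
      simp [I]
    rw [this]
    have : 1 ≤ 6 ^ m := Nat.one_le_pow _ _ (by norm_num)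
    omega
  · rw [LL_eq, LL_eq]
    exact h

theorem rr_pos {S : Finset ℤ} {k : ℤ} {q : ℤ × ℤ} (hq : q ∈ S ×ˢ S) :
    0 < rr S k (q.1 + k * q.2) := by
  unfold rr
  rw [card_pos]
  exact ⟨q, mem_filter.2 ⟨hq, rfl⟩⟩

theorem rr_le (S : Finset ℤ) (k z : ℤ) : rr S k z ≤ S.card := by
  unfold rr
  rw [← card_image_of_injOn (f := Prod.snd)]
  · refine card_le_card fun x hx => ?_
    obtain ⟨p, hp, rfl⟩ := mem_image.1 hx
    exact (mem_product.1 (mem_filter.1 hp).1).2
  · intro p hp q hq h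
    have h1 := (mem_filter.1 (mem_coe.1 hp)).2
    have h2 := (mem_filter.1 (mem_coe.1 hq)).2
    have h3 : p.2 = q.2 := h
    rw [h3] at h1
    exact Prod.ext (by linarith) h3

open Pool.Agent.R508.FD in
theorem gk_const (S : Finset ℤ) (c : ℝ) (k z : ℤ) :
    gk S (fun _ => c) k z = c * c * rr S k z := by
  unfold gk rr
  rw [sum_const, nsmul_eq_mul, mul_comm]

open Pool.Agent.R508.FD in
theorem FF_eq (S : Finset ℤ) (c : ℝ) (hc : 0 < c) (k : ℤ) (p : ℝ) :
    FF (Mk S k) (gk S (fun _ => c) k) p =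
      ∑ q ∈ S ×ˢ S, Real.exp (p * Real.log (c * c) + (p - 1) * Real.log (rr S k (q.1 + k * q.2))) := by
  unfold FF
  rw [← Finset.sum_fiberwise_of_maps_to (s := S ×ˢ S) (t := Mk S k)
    (g := fun p : ℤ × ℤ => p.1 + k * p.2) (fun p hp => mem_image.2 ⟨p, hp, rfl⟩)]
  refine sum_congr rfl fun z hz => ?_
  obtain ⟨q0, hq0, hz0⟩ := mem_image.1 hz
  have hz0' : q0.1 + k * q0.2 = z := hz0
  have hpos : 0 < rr S k z := by rw [← hz0']; exact rr_pos hq0
  have hpos' : (0 : ℝ) < rr S k z := by exact_mod_cast hpos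
  rw [gk_const]
  have h1 : ∀ q ∈ (S ×ˢ S).filter (fun p => p.1 + k * p.2 = z),
      Real.exp (p * Real.log (c * c) + (p - 1) * Real.log (rr S k (q.1 + k * q.2))) =
      Real.exp (p * Real.log (c * c) + (p - 1) * Real.log (rr S k z)) := by
    intro q hq
    rw [(mem_filter.1 hq).2]
  rw [sum_congr rfl h1, sum_const, nsmul_eq_mul]
  have h2 : ((S ×ˢ S).filter (fun p => p.1 + k * p.2 = z)).card = rr S k z := rfl
  rw [h2, Real.rpow_def_of_pos (by positivity), Real.log_mul (by positivity) hpos'.ne']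
  have h3 : (rr S k z : ℝ) = Real.exp (Real.log (rr S k z)) := (Real.exp_log hpos').symm
  conv_rhs => rw [h3]
  rw [← Real.exp_add, Real.log_exp]
  congr 1
  ring

open Pool.Agent.R508.FD in
/-- a suitable multiple of the indicator function is a counterexample -/
theorem norms (S : Finset ℤ) (hS : 2 ≤ S.card) (h : LL S 1 < LL S 2) :
    ∃ c : ℝ, 0 < c ∧ c ≤ 1 ∧ 1 < ∑ _i ∈ S, c ∧
      (⨅ p : Set.Ioo (0 : ℝ) 1, FF (Mk S 2) (gk S (fun _ => c) 2) p) <
        ⨅ p : Set.Ioo (0 : ℝ) 1, FF (Mk S 1) (gk S (fun _ => c) 1) p := by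
  set N : ℝ := (S.card : ℝ) * S.card with hN
  have hS' : (2 : ℝ) ≤ S.card := by exact_mod_cast hS
  have hN0 : 0 < N := by positivity
  set κ : ℝ := Real.exp (-(LL S 1) / N) with hκ
  have hκ0 : 0 < κ := Real.exp_pos _
  have hL0 : 0 ≤ LL S 1 := by
    unfold LL
    refine sum_nonneg fun q hq => Real.log_nonneg ?_
    have : 1 ≤ rr S 1 (q.1 + 1 * q.2) := rr_pos hq
    exact_mod_cast this
  have hcardN : ((S ×ˢ S).card : ℝ) = N := by rw [card_product]; push_cast; rfl
  have hL1 : LL S 1 ≤ N * Real.log S.card := by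
    unfold LL
    calc _ ≤ ∑ q ∈ S ×ˢ S, Real.log S.card := by
          refine sum_le_sum fun q hq => ?_
          refine Real.log_le_log ?_ ?_
          · have := rr_pos (k := 1) hq
            exact_mod_cast this
          · exact_mod_cast rr_le S 1 _
      _ = _ := by rw [sum_const, nsmul_eq_mul, hcardN]
  have hκ1 : κ ≤ 1 := by
    rw [hκ, Real.exp_le_one_iff]
    exact div_nonpos_of_nonpos_of_nonneg (by linarith) hN0.le
  set c := Real.sqrt κ with hc
  have hc0 : 0 < c := Real.sqrt_pos.2 hκ0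
  have hcc : c * c = κ := Real.mul_self_sqrt hκ0.le
  have hlog : Real.log (c * c) = -(LL S 1) / N := by rw [hcc, hκ, Real.log_exp]
  have hNlog : N * Real.log (c * c) = - LL S 1 := by rw [hlog]; field_simp
  refine ⟨c, hc0, ?_, ?_, ?_⟩
  · rw [hc, Real.sqrt_le_one]
    exact hκ1
  · rw [sum_const, nsmul_eq_mul]
    have h1 : 1 < (S.card * c) ^ 2 := by
      have h2 : (S.card * c) ^ 2 = N * κ := by rw [← hcc, hN]; ring
      rw [h2]
      have h3 : Real.exp (-Real.log S.card) ≤ κ := by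
        rw [hκ, Real.exp_le_exp, le_div_iff₀ hN0]
        linarith
      rw [Real.exp_neg, Real.exp_log (by linarith)] at h3
      have h4 : N * (S.card : ℝ)⁻¹ ≤ N * κ := mul_le_mul_of_nonneg_left h3 hN0.le
      have h5 : N * (S.card : ℝ)⁻¹ = S.card := by
        rw [hN]; field_simp
      rw [h5] at h4
      linarith
    have h6 : 0 ≤ S.card * c := by positivity
    nlinarith
  · have : Nonempty (Set.Ioo (0 : ℝ) 1) := ⟨⟨1 / 2, by norm_num, by norm_num⟩⟩
    have hlow : N * κ ≤ ⨅ p : Set.Ioo (0 : ℝ) 1, FF (Mk S 1) (gk S (fun _ => c) 1) p := by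
      refine le_ciInf fun p => ?_
      rw [FF_eq S c hc0]
      have h1 : ∀ q ∈ S ×ˢ S, κ * (1 + ((p : ℝ) * Real.log (c * c)
            + ((p : ℝ) - 1) * Real.log (rr S 1 (q.1 + 1 * q.2)) - Real.log κ)) ≤
          Real.exp ((p : ℝ) * Real.log (c * c)
            + ((p : ℝ) - 1) * Real.log (rr S 1 (q.1 + 1 * q.2))) := by
        intro q _
        set a := (p : ℝ) * Real.log (c * c)
            + ((p : ℝ) - 1) * Real.log (rr S 1 (q.1 + 1 * q.2))
        have h2 := Real.add_one_le_exp (a - Real.log κ)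
        have h3 : Real.exp a = κ * Real.exp (a - Real.log κ) := by
          rw [Real.exp_sub, Real.exp_log hκ0]
          field_simp
        rw [h3]
        exact mul_le_mul_of_nonneg_left (by linarith) hκ0.le
      refine le_trans (le_of_eq ?_) (sum_le_sum h1)
      rw [← mul_sum, mul_comm]
      congr 1
      have h4 : ∑ q ∈ S ×ˢ S, (1 + ((p : ℝ) * Real.log (c * c)
            + ((p : ℝ) - 1) * Real.log (rr S 1 (q.1 + 1 * q.2)) - Real.log κ)) =
          N * (1 + (p : ℝ) * Real.log (c * c) - Real.log κ) + ((p : ℝ) - 1) * LL S 1 := by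
        unfold LL
        rw [mul_sum, ← hcardN, ← nsmul_eq_mul, ← sum_const, ← sum_add_distrib]
        refine sum_congr rfl fun q _ => ?_
        ring
      rw [h4, ← hcc]
      linear_combination (-((p : ℝ) - 1)) * hNlog
    refine lt_of_lt_of_le ?_ hlow
    -- a point with a small value
    have hg : ∀ z ∈ Mk S 2, 0 < gk S (fun _ => c) 2 z :=
      fun z hz => gk_pos (fun i _ => hc0) 2 z hz
    set G : ℝ → ℝ := fun p => ∑ q ∈ S ×ˢ S,
      Real.exp (p * Real.log (c * c) + (p - 1) * Real.log (rr S 2 (q.1 + 2 * q.2))) with hG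
    have hder : HasDerivAt G (∑ q ∈ S ×ˢ S,
        Real.exp (1 * Real.log (c * c) + (1 - 1) * Real.log (rr S 2 (q.1 + 2 * q.2))) *
          (1 * Real.log (c * c) + 1 * Real.log (rr S 2 (q.1 + 2 * q.2)))) 1 := by
      refine HasDerivAt.fun_sum fun q _ => ?_
      refine HasDerivAt.exp ?_
      exact ((hasDerivAt_id (1 : ℝ)).mul_const _).add
        (((hasDerivAt_id (1 : ℝ)).sub_const 1).mul_const _)
    have hval : (∑ q ∈ S ×ˢ S,
        Real.exp (1 * Real.log (c * c) + (1 - 1) * Real.log (rr S 2 (q.1 + 2 * q.2))) *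
          (1 * Real.log (c * c) + 1 * Real.log (rr S 2 (q.1 + 2 * q.2)))) =
        κ * (LL S 2 - LL S 1) := by
      have h1 : ∀ q ∈ S ×ˢ S,
          Real.exp (1 * Real.log (c * c) + (1 - 1) * Real.log (rr S 2 (q.1 + 2 * q.2))) *
          (1 * Real.log (c * c) + 1 * Real.log (rr S 2 (q.1 + 2 * q.2))) =
          κ * (Real.log (c * c) + Real.log (rr S 2 (q.1 + 2 * q.2))) := by
        intro q _
        rw [sub_self, zero_mul, add_zero, one_mul, one_mul, Real.exp_log (by positivity), hcc]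
      rw [sum_congr rfl h1, ← mul_sum, sum_add_distrib, sum_const, nsmul_eq_mul, hcardN, hNlog]
      unfold LL
      ring
    rw [hval] at hder
    have hpos : 0 < κ * (LL S 2 - LL S 1) := mul_pos hκ0 (by linarith)
    have hG1 : G 1 = N * κ := by
      simp only [hG]
      have h1 : ∀ q ∈ S ×ˢ S,
          Real.exp (1 * Real.log (c * c) + (1 - 1) * Real.log (rr S 2 (q.1 + 2 * q.2))) = κ := by
        intro q _
        rw [sub_self, zero_mul, add_zero, one_mul, Real.exp_log (by positivity), hcc]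
      rw [sum_congr rfl h1, sum_const, nsmul_eq_mul, hcardN]
    obtain ⟨p, hp0, hp1, hlt⟩ : ∃ p : ℝ, 0 < p ∧ p < 1 ∧ G p < G 1 := by
      have h1 := hasDerivAt_iff_tendsto_slope.1 hder
      have h2 := h1.eventually (lt_mem_nhds hpos)
      have h3 : ∀ᶠ p in nhdsWithin (1 : ℝ) (Set.Iio 1), 0 < slope G 1 p :=
        h2.filter_mono (nhdsWithin_mono _ (fun x hx => ne_of_lt hx))
      have h4 : ∀ᶠ p in nhdsWithin (1 : ℝ) (Set.Iio 1), 0 < p :=
        nhdsWithin_le_nhds (lt_mem_nhds one_pos)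
      obtain ⟨p, ⟨h5, h6⟩, h7⟩ := ((h3.and h4).and self_mem_nhdsWithin).exists
      have h7' : p < 1 := h7
      refine ⟨p, h6, h7', ?_⟩
      rw [slope_def_field] at h5
      rcases div_pos_iff.1 h5 with h8 | h8
      · linarith [h8.2]
      · linarith [h8.1]
    have hbdd : BddBelow (Set.range fun p : Set.Ioo (0 : ℝ) 1 =>
        FF (Mk S 2) (gk S (fun _ => c) 2) p) := by
      refine ⟨0, ?_⟩
      rintro _ ⟨q, rfl⟩
      exact sum_nonneg fun z hz => Real.rpow_nonneg (hg z hz).le _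
    refine lt_of_le_of_lt (ciInf_le hbdd ⟨p, hp0, hp1⟩) ?_
    rw [FF_eq S c hc0, ← hG1]
    exact hlt

open Pool.Agent.R508.FD in
/-- **there is a finite set `S` of integers with `|S + 2·S| < |S + S|`** -/
theorem exists_sm : ∃ S : Finset ℤ, 2 ≤ S.card ∧ (sm 2 S).card < (sm 1 S).card := by
  obtain ⟨S, hS, h⟩ := exists_set
  obtain ⟨c, hc0, hc1, hA, hlt⟩ := norms S (by omega) h
  have hα : ∀ i ∈ S, 0 < (fun _ : ℤ => c) i ∧ (fun _ : ℤ => c) i ≤ 1 := fun _ _ => ⟨hc0, hc1⟩
  have hA' : 1 < ∑ i ∈ S, (fun _ : ℤ => c) i := hA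
  obtain ⟨G1, _, hG1, _, hI1, _⟩ := data hα hA' 1 (by norm_num)
  obtain ⟨G2, _, hG2, _, hI2, _⟩ := data hα hA' 2 (by norm_num)
  have hlt' : G2 < G1 := by
    rw [← hI1, ← hI2]
    exact hlt
  have hG20 : 0 < G2 := by linarith
  set A := ∑ i ∈ S, (fun _ : ℤ => c) i with hAd
  have hlA : 0 < Real.log A := Real.log_pos hA'
  have hll : Real.log G2 < Real.log G1 := Real.log_lt_log hG20 hlt'
  set ε := (Real.log G1 - Real.log G2) / (2 * Real.log A) with hε
  have hε0 : 0 < ε := div_pos (by linarith) (by linarith)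
  obtain ⟨T, hT, hT2⟩ := main hα hA' 2 ε hε0
  have h1 := hT2 1 (by norm_num) (by norm_num)
  have h2 := hT2 2 (by norm_num) (by norm_num)
  rw [hI1] at h1
  rw [hI2] at h2
  refine ⟨T, hT, ?_⟩
  have hT' : (2 : ℝ) ≤ T.card := by exact_mod_cast hT
  have hlT : 0 < Real.log T.card := Real.log_pos (by linarith)
  have h3 := (abs_lt.1 h1).2
  have h4 := (abs_lt.1 h2).1
  have h5 : Real.log G1 / Real.log A - Real.log G2 / Real.log A = 2 * ε := by
    rw [hε]
    field_simp
  have h6 : Real.log (sm 2 T).card / Real.log T.card < Real.log (sm 1 T).card / Real.log T.card := by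
    linarith
  have h7 : Real.log (sm 2 T).card < Real.log (sm 1 T).card := (div_lt_div_iff_of_pos_right hlT).1 h6
  have hTn : T.Nonempty := card_pos.1 (by omega)
  have h8 : 0 < (sm 1 T).card := by
    obtain ⟨x, hx⟩ := hTn
    exact card_pos.2 ⟨_, (mem_sm 1 T _).2 ⟨x, hx, x, hx, rfl⟩⟩
  have h9 := (Real.log_lt_log_iff (by
    obtain ⟨x, hx⟩ := hTn
    have : 0 < (sm 2 T).card := card_pos.2 ⟨_, (mem_sm 2 T _).2 ⟨x, hx, x, hx, rfl⟩⟩
    exact_mod_cast this) (by exact_mod_cast h8)).1 h7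
  exact_mod_cast h9

end Run7.h97.FD
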